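import Mathlib

namespace Pool.Agent.Results.MP_b215e8_pr.Q1

open MeasureTheory ProbabilityTheory Measure Set
open scoped ENNReal

/-- arrival time of seed number `i` (`i = 0, 1, …`), from the inter-arrival times `ξ` -/
def tau (ξ : ℕ → ℝ) (i : ℕ) : ℝ := ∑ j ∈ Finset.range (i + 1), ξ j

/-- `𝒳(t) = S`, for inter-arrival times `ω.1` and seeds `ω.2` -/
def Covered {S : Type} [MetricSpace S] (v : ℝ) (ω : (ℕ → ℝ) × (ℕ → S)) (t : ℝ) : Prop :=
  ∀ s, ∃ i, tau ω.1 i ≤ t ∧ dist (ω.2 i) s ≤ v * (t - tau ω.1 i)

/-- the cover time -/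
noncomputable def coverTime {S : Type} [MetricSpace S] (v : ℝ) (ω : (ℕ → ℝ) × (ℕ → S)) : ℝ≥0∞ :=
  ⨅ (t : ℝ) (_ : Covered v ω t), ENNReal.ofReal t

/-- `E_μ C`: i.i.d. `Exp(lam)` inter-arrival times, independent of i.i.d. seeds of law `μ` -/
noncomputable def meanC {S : Type} [MetricSpace S] [MeasurableSpace S] (lam v : ℝ)
    (μ : Measure S) : ℝ≥0∞ :=
  ∫⁻ ω, coverTime v ω ∂((infinitePi fun _ : ℕ => expMeasure lam).prod
    (infinitePi fun _ : ℕ => μ))

instance : IsProbabilityMeasure (expMeasure 1) := isProbabilityMeasure_expMeasure one_pos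

lemma mean_fin : ∫⁻ x, ENNReal.ofReal x ∂(expMeasure 1) ≠ ⊤ := by
  have hm : Measurable (gammaPDF 1 1) := (measurable_gammaPDFReal 1 1).ennreal_ofReal
  rw [expMeasure, gammaMeasure,
    lintegral_withDensity_eq_lintegral_mul _ hm ENNReal.measurable_ofReal]
  have h := (Real.GammaIntegral_convergent (s := 2) two_pos).2
  refine ne_top_of_le_ne_top h.ne ?_
  rw [← lintegral_indicator measurableSet_Ioi]
  refine lintegral_mono fun x => ?_
  by_cases hx : 0 < x
  · rw [indicator_of_mem (show x ∈ Ioi 0 from hx)]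
    have e : gammaPDF 1 1 x = ENNReal.ofReal (1 * Real.exp (-(1 * x))) :=
      exponentialPDF_of_nonneg hx.le
    simp only [Pi.mul_apply, e]
    rw [← ENNReal.ofReal_mul (by positivity), Real.enorm_eq_ofReal (by positivity)]
    apply le_of_eq
    congr 1
    norm_num
  · simp [ENNReal.ofReal_of_nonpos (not_lt.mp hx)]

lemma exp_Iic (x : ℝ) (hx : 0 ≤ x) :
    expMeasure 1 (Iic x) = ENNReal.ofReal (1 - Real.exp (-x)) := by
  rw [← ofReal_cdf, cdf_expMeasure_eq one_pos, if_pos hx, one_mul]

section
variable {S : Type} [MetricSpace S] [MeasurableSpace S] [DiscreteMeasurableSpace S]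

lemma upper (L c : ℝ) (hL : 0 ≤ L) (hc0 : 0 ≤ c)
    (hc : ∫⁻ x, ENNReal.ofReal x ∂(expMeasure 1) = ENNReal.ofReal c) (p q : S)
    (μ : Measure S) [IsProbabilityMeasure μ] (hp : μ {p}ᶜ ≤ ENNReal.ofReal (1 / 2))
    (hq : μ {q}ᶜ ≤ ENNReal.ofReal (1 / 2))
    (dom : ∀ s, dist p s ≤ L ∨ dist q s ≤ L) (diam : ∀ x y : S, dist x y ≤ 2 * L) :
    meanC 1 1 μ ≤ ENNReal.ofReal (4 * c + L + L * (1 / 8)) := by
  set bad : Set (ℕ → S) := Set.pi (Finset.range 4) (fun _ => {p}ᶜ) ∪
    Set.pi (Finset.range 4) (fun _ => {q}ᶜ) with hbad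
  have hb : infinitePi (fun _ : ℕ => μ) bad ≤ ENNReal.ofReal (1 / 8) := by
    refine (measure_union_le _ _).trans ?_
    rw [infinitePi_pi _ (fun _ _ => MeasurableSet.of_discrete),
      infinitePi_pi _ (fun _ _ => MeasurableSet.of_discrete)]
    simp only [Finset.prod_const, Finset.card_range]
    refine (add_le_add (pow_le_pow_left' hp 4) (pow_le_pow_left' hq 4)).trans ?_
    rw [← ENNReal.ofReal_pow (by norm_num), ← ENNReal.ofReal_add (by norm_num) (by norm_num)]
    exact ENNReal.ofReal_le_ofReal (by norm_num)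
  have hpt : ∀ ω : (ℕ → ℝ) × (ℕ → S), coverTime 1 ω ≤
      (∑ j ∈ Finset.range 4, ENNReal.ofReal (ω.1 j) + ENNReal.ofReal L) +
        (univ ×ˢ bad).indicator (fun _ => ENNReal.ofReal L) ω := by
    intro ω
    set T : ℝ := ∑ j ∈ Finset.range 4, max (ω.1 j) 0 with hT
    have hT0 : 0 ≤ T := Finset.sum_nonneg fun j _ => le_max_right _ _
    have hTe : ENNReal.ofReal T = ∑ j ∈ Finset.range 4, ENNReal.ofReal (ω.1 j) := by
      rw [hT, ENNReal.ofReal_sum_of_nonneg (fun j _ => le_max_right _ _)]
      refine Finset.sum_congr rfl fun j _ => ?_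
      rw [ENNReal.ofReal_max]
      simp
    have htau : ∀ i, i < 4 → tau ω.1 i ≤ T := by
      intro i hi
      refine (Finset.sum_le_sum (fun j _ => le_max_left (ω.1 j) 0)).trans ?_
      exact Finset.sum_le_sum_of_subset_of_nonneg (Finset.range_mono (by omega))
        (fun j _ _ => le_max_right _ _)
    by_cases hω : ω.2 ∈ bad
    · rw [indicator_of_mem (show ω ∈ univ ×ˢ bad from ⟨trivial, hω⟩), ← hTe,
        ← ENNReal.ofReal_add hT0 hL, ← ENNReal.ofReal_add (by positivity) hL]
      refine iInf₂_le_of_le (T + L + L) (fun s => ⟨0, ?_, ?_⟩) le_rfl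
      · linarith [htau 0 (by omega)]
      · linarith [htau 0 (by omega), diam (ω.2 0) s]
    · refine le_trans ?_ le_self_add
      rw [← hTe, ← ENNReal.ofReal_add hT0 hL]
      simp only [hbad, mem_union, Set.mem_pi, Finset.coe_range, mem_Iio, mem_compl_iff,
        mem_singleton_iff, not_or, not_forall, not_not] at hω
      obtain ⟨⟨i, hi, ei⟩, ⟨j, hj, ej⟩⟩ := hω
      refine iInf₂_le_of_le (T + L) (fun s => ?_) le_rfl
      rcases dom s with h | h
      · exact ⟨i, by linarith [htau i hi], by rw [ei]; linarith [htau i hi]⟩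
      · exact ⟨j, by linarith [htau j hj], by rw [ej]; linarith [htau j hj]⟩
  refine (lintegral_mono hpt).trans ?_
  rw [lintegral_add_left (by fun_prop), lintegral_add_left (by fun_prop),
    lintegral_finset_sum _ (by fun_prop)]
  have e : ∀ j : ℕ, ∫⁻ ω : (ℕ → ℝ) × (ℕ → S), ENNReal.ofReal (ω.1 j)
      ∂((infinitePi fun _ : ℕ => expMeasure 1).prod (infinitePi fun _ : ℕ => μ)) =
      ENNReal.ofReal c := by
    intro j
    rw [← hc]
    exact ((measurePreserving_eval_infinitePi (fun _ : ℕ => expMeasure 1) j).comp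
      measurePreserving_fst).lintegral_comp ENNReal.measurable_ofReal
  simp only [e, Finset.sum_const, Finset.card_range, lintegral_const, measure_univ, mul_one]
  rw [ENNReal.ofReal_add (by positivity) (by positivity), ENNReal.ofReal_add (by positivity) hL,
    ENNReal.ofReal_mul hL, ENNReal.ofReal_mul (by norm_num)]
  refine add_le_add (le_of_eq (by simp)) ((lintegral_indicator_const_le _ _).trans ?_)
  rw [prod_prod, measure_univ, one_mul]
  exact mul_le_mul_right hb _

lemma lower (L ε : ℝ) (hL : 0 ≤ L) (hε0 : 0 ≤ ε) (M : ℕ) {Q : Type} [Fintype Q] (r : S → Q)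
    (m : Measure S) [IsProbabilityMeasure m] (hM : (1 - Real.exp (-(2 * L))) ^ M ≤ 1 / 8)
    (hε : ∀ q, m (r ⁻¹' {q}) ≤ ENNReal.ofReal ε) (hMε : (M : ℝ) * M * ε ≤ 1 / 8)
    (far : ∀ σ : ℕ → S, (∀ i < M, ∀ j < M, r (σ i) = r (σ j) → i = j) →
      ∃ s, ∀ i < M, 2 * L ≤ dist (σ i) s) :
    ENNReal.ofReal (2 * L * (3 / 4)) ≤ meanC 1 1 m := by
  classical
  set P := (infinitePi fun _ : ℕ => expMeasure 1).prod (infinitePi fun _ : ℕ => m) with hP
  set N : Set (ℕ → ℝ) := ⋃ j, Set.pi ({j} : Finset ℕ) (fun _ => Iic 0) with hN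
  set A : Set (ℕ → ℝ) := Set.pi (Finset.range M) (fun _ => Iic (2 * L)) with hA
  set B : Set (ℕ → S) := ⋃ p ∈ (Finset.range M).offDiag, ⋃ q ∈ (Finset.univ : Finset Q),
    Set.pi ({p.1, p.2} : Finset ℕ) (fun _ => r ⁻¹' {q}) with hB
  have h1 : infinitePi (fun _ : ℕ => expMeasure 1) N = 0 := by
    refine measure_iUnion_null fun j => ?_
    rw [infinitePi_pi _ (fun _ _ => measurableSet_Iic), Finset.prod_singleton, exp_Iic 0 le_rfl]
    simp
  have h2 : infinitePi (fun _ : ℕ => expMeasure 1) A ≤ ENNReal.ofReal (1 / 8) := by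
    rw [infinitePi_pi _ (fun _ _ => measurableSet_Iic), Finset.prod_const, Finset.card_range,
      exp_Iic _ (by positivity), ← ENNReal.ofReal_pow
        (sub_nonneg.mpr (Real.exp_le_one_iff.mpr (by linarith)))]
    exact ENNReal.ofReal_le_ofReal hM
  have h3 : infinitePi (fun _ : ℕ => m) B ≤ ENNReal.ofReal (1 / 8) := by
    refine (measure_biUnion_finset_le _ _).trans ?_
    refine (Finset.sum_le_card_nsmul _ _ (ENNReal.ofReal ε) ?_).trans ?_
    · intro p hp
      have hne : p.1 ≠ p.2 := (Finset.mem_offDiag.mp hp).2.2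
      refine (measure_biUnion_finset_le _ _).trans ?_
      refine (Finset.sum_le_sum (g := fun q => ENNReal.ofReal ε * m (r ⁻¹' {q})) ?_).trans ?_
      · intro q _
        rw [infinitePi_pi _ (fun _ _ => MeasurableSet.of_discrete), Finset.prod_pair hne]
        exact mul_le_mul_left (hε q) _
      · rw [← Finset.mul_sum,
          sum_measure_preimage_singleton _ (fun _ _ => MeasurableSet.of_discrete)]
        simp
    · rw [nsmul_eq_mul, ← ENNReal.ofReal_natCast, ← ENNReal.ofReal_mul (by positivity)]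
      refine ENNReal.ofReal_le_ofReal (le_trans (mul_le_mul_of_nonneg_right ?_ hε0) hMε)
      rw [Finset.offDiag_card, Finset.card_range]
      exact_mod_cast Nat.sub_le _ _
  set Bad : Set ((ℕ → ℝ) × (ℕ → S)) := (N ×ˢ univ ∪ A ×ˢ univ) ∪ univ ×ˢ B with hBad
  have h4 : P Bad ≤ ENNReal.ofReal (1 / 4) := by
    refine (measure_union_le _ _).trans ((add_le_add_left (measure_union_le _ _) _).trans ?_)
    simp only [hP, prod_prod, measure_univ, mul_one, one_mul, h1, zero_add]
    refine (add_le_add h2 h3).trans ?_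
    rw [← ENNReal.ofReal_add (by norm_num) (by norm_num)]
    exact ENNReal.ofReal_le_ofReal (by norm_num)
  have hpt : ∀ ω, (toMeasurable P Bad)ᶜ.indicator (fun _ => ENNReal.ofReal (2 * L)) ω ≤
      coverTime 1 ω := by
    intro ω
    by_cases hω : ω ∈ (toMeasurable P Bad)ᶜ
    · rw [indicator_of_mem hω]
      have hω' : ω ∉ Bad := fun h => hω (subset_toMeasurable _ _ h)
      have a1 : ∀ j, 0 ≤ ω.1 j := by
        intro j
        by_contra hc
        refine hω' (Or.inl (Or.inl ⟨mem_iUnion.mpr ⟨j, ?_⟩, trivial⟩))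
        intro i hi
        rw [Finset.coe_singleton, mem_singleton_iff] at hi
        subst hi
        exact (not_le.mp hc).le
      have a2 : ∃ j < M, 2 * L < ω.1 j := by
        by_contra hc
        push Not at hc
        exact hω' (Or.inl (Or.inr ⟨fun i hi => hc i (by simpa using hi), trivial⟩))
      have a3 : ∀ i < M, ∀ j < M, r (ω.2 i) = r (ω.2 j) → i = j := by
        intro i hi j hj h
        by_contra hc
        refine hω' (Or.inr ⟨trivial, mem_iUnion₂.mpr ⟨(i, j), by simp [hi, hj, hc],
          mem_iUnion₂.mpr ⟨r (ω.2 j), Finset.mem_univ _, ?_⟩⟩⟩)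
        intro k hk
        simp only [Finset.coe_insert, Finset.coe_singleton, mem_insert_iff,
          mem_singleton_iff] at hk
        rcases hk with rfl | rfl
        · exact h
        · rfl
      obtain ⟨s, hs⟩ := far _ a3
      obtain ⟨j, hj, hj'⟩ := a2
      refine le_iInf₂ fun t ht => ENNReal.ofReal_le_ofReal ?_
      obtain ⟨i, h1, h2⟩ := ht s
      by_cases hi : i < M
      · have : 0 ≤ tau ω.1 i := Finset.sum_nonneg fun j _ => a1 j
        linarith [hs i hi]
      · have : ω.1 j ≤ tau ω.1 i :=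
          Finset.single_le_sum (fun j _ => a1 j) (Finset.mem_range.mpr (by omega))
        linarith
    · rw [indicator_of_notMem hω]
      exact zero_le
  refine le_trans ?_ (lintegral_mono hpt)
  rw [lintegral_indicator_const (measurableSet_toMeasurable _ _).compl,
    prob_compl_eq_one_sub (measurableSet_toMeasurable _ _), measure_toMeasurable,
    ENNReal.ofReal_mul (by positivity)]
  refine mul_le_mul_right (le_trans ?_ (tsub_le_tsub_left h4 1)) _
  rw [← ENNReal.ofReal_one, ← ENNReal.ofReal_sub _ (by norm_num)]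
  exact ENNReal.ofReal_le_ofReal (by norm_num)

end

/-- the finite group used as a counterexample -/
def G (n : ℕ) : Type := ℤˣ × (ℤˣ ≀ᵣ Multiplicative (ZMod (n + 1)))

instance (n : ℕ) : Group (G n) :=
  inferInstanceAs (Group (ℤˣ × (ℤˣ ≀ᵣ Multiplicative (ZMod (n + 1)))))

instance (n : ℕ) : Finite (G n) :=
  inferInstanceAs (Finite (ℤˣ × (ℤˣ ≀ᵣ Multiplicative (ZMod (n + 1)))))

def F {n : ℕ} (x y : G n) : ℤˣ :=
  x.1 * y.1 * (x.2.left x.2.right * y.2.left x.2.right) * (x.2.left y.2.right * y.2.left y.2.right)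

lemma F_symm {n : ℕ} (x y : G n) : F x y = F y x := by
  simp only [F]
  ac_rfl

lemma F_mul {n : ℕ} (g x y : G n) : F (g * x) (g * y) = F x y := by
  have e1 : ∀ z : G n, (g * z).1 = g.1 * z.1 := fun _ => rfl
  have e2 : ∀ z w : G n, (g * z).2.left (g * w).2.right =
      g.2.left (g.2.right * w.2.right) * z.2.left w.2.right := by
    intro z w
    show g.2.left (g.2.right * w.2.right) *
      z.2.left (g.2.right⁻¹ * (g.2.right * w.2.right)) = _
    rw [inv_mul_cancel_left]
  have k : ∀ a b c x y p q r s : ℤˣ, a * x * (a * y) * (b * p * (b * q)) * (c * r * (c * s)) =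
      x * y * (p * q) * (r * s) := by decide
  simp only [F, e1, e2, k]

open Classical in
noncomputable def met (n : ℕ) (L : ℝ) (hL : 0 < L) : MetricSpace (G n) where
  dist x y := if x = y then 0 else if F x y = 1 then L else 2 * L
  dist_self x := if_pos rfl
  dist_comm x y := by simp only [F_symm x y, eq_comm (a := x) (b := y)]
  dist_triangle x y z := by
    by_cases h1 : x = y
    · subst h1
      simp
    by_cases h2 : y = z
    · subst h2
      simp
    simp only [h1, h2, if_false]
    split_ifs <;> linarith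
  eq_of_dist_eq_zero := by
    intro x y h
    by_contra hc
    simp only [hc, if_false] at h
    split_ifs at h <;> linarith

theorem result : ∃ (S : Type) (_ : Group S) (_ : MetricSpace S) (_ : CompactSpace S)
    (_ : IsTopologicalGroup S) (_ : MeasurableSpace S) (_ : BorelSpace S),
    (∀ g x y : S, dist (g * x) (g * y) = dist x y) ∧
      ∃ (lam v : ℝ) (μ : Measure S), 0 < lam ∧ 0 < v ∧ IsProbabilityMeasure μ ∧
        meanC lam v μ < meanC lam v (haarMeasure (⊤ : TopologicalSpace.PositiveCompacts S)) := by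
  classical
  set c := (∫⁻ x, ENNReal.ofReal x ∂(expMeasure 1)).toReal with hc
  have hc0 : 0 ≤ c := ENNReal.toReal_nonneg
  set L := 11 * c + 1 with hLdef
  have hL : 0 < L := by positivity
  obtain ⟨M, hM⟩ := exists_pow_lt_of_lt_one (show (0 : ℝ) < 1 / 8 by norm_num)
    (show 1 - Real.exp (-(2 * L)) < 1 by linarith [Real.exp_pos (-(2 * L))])
  obtain ⟨n, hn⟩ : ∃ n, n = 8 * (M * M) + M := ⟨_, rfl⟩
  letI : MetricSpace (G n) := met n L hL
  have hd : ∀ x y : G n, dist x y = if x = y then 0 else if F x y = 1 then L else 2 * L :=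
    fun _ _ => rfl
  letI : MeasurableSpace (G n) := borel _
  haveI : BorelSpace (G n) := ⟨rfl⟩
  haveI : IsTopologicalGroup (G n) :=
    { continuous_mul := continuous_of_discreteTopology
      continuous_inv := continuous_of_discreteTopology }
  haveI : DiscreteMeasurableSpace (G n) := ⟨fun s => (isOpen_discrete s).measurableSet⟩
  haveI hm : IsProbabilityMeasure (haarMeasure (⊤ : TopologicalSpace.PositiveCompacts (G n))) :=
    ⟨by simpa using haarMeasure_self (K₀ := (⊤ : TopologicalSpace.PositiveCompacts (G n)))⟩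
  let p : G n := (1, 1)
  let q : G n := (-1, 1)
  let μ : Measure (G n) := ENNReal.ofReal (1 / 2) • dirac p + ENNReal.ofReal (1 / 2) • dirac q
  haveI hμ : IsProbabilityMeasure μ := ⟨by
    simp only [μ, Measure.add_apply, Measure.smul_apply, measure_univ, smul_eq_mul, mul_one]
    rw [← ENNReal.ofReal_add (by norm_num) (by norm_num)]
    norm_num⟩
  refine ⟨G n, inferInstance, inferInstance, inferInstance, inferInstance, inferInstance,
    inferInstance, fun g x y => by simp only [hd, F_mul, mul_right_inj], 1, 1, μ, one_pos, one_pos,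
    hμ, ?_⟩
  have u := upper L c hL.le hc0 (ENNReal.ofReal_toReal mean_fin).symm p q μ
    (by
      simp only [μ, Measure.add_apply, Measure.smul_apply, smul_eq_mul]
      rw [dirac_apply' p MeasurableSet.of_discrete, indicator_of_notMem (by simp), mul_zero,
        zero_add]
      exact mul_le_of_le_one_right' prob_le_one)
    (by
      simp only [μ, Measure.add_apply, Measure.smul_apply, smul_eq_mul]
      rw [dirac_apply' q MeasurableSet.of_discrete, indicator_of_notMem (by simp), mul_zero,
        add_zero]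
      exact mul_le_of_le_one_right' prob_le_one)
    (by
      intro s
      have k : ∀ a b d : ℤˣ, 1 * a * (1 * b) * (1 * d) = 1 ∨ -1 * a * (1 * b) * (1 * d) = 1 := by
        decide
      rcases k s.1 (s.2.left 1) (s.2.left s.2.right) with h | h
      · left
        have : F p s = 1 := h
        rw [hd, this]
        split_ifs <;> first | linarith | simp_all
      · right
        have : F q s = 1 := h
        rw [hd, this]
        split_ifs <;> first | linarith | simp_all)
    (by
      intro x y
      rw [hd]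
      split_ifs <;> linarith)
  have l := lower L (1 / (n + 1)) hL.le (by positivity) M
    (fun x : G n => x.2.right) (haarMeasure (⊤ : TopologicalSpace.PositiveCompacts (G n))) hM.le
    (by
      intro a
      set m := haarMeasure (⊤ : TopologicalSpace.PositiveCompacts (G n))
      have e : ∀ b, m ((fun x : G n => x.2.right) ⁻¹' {b}) =
          m ((fun x : G n => x.2.right) ⁻¹' {a}) := by
        intro b
        rw [← measure_preimage_mul m ((1, ⟨1, a * b⁻¹⟩) : G n)
          ((fun x : G n => x.2.right) ⁻¹' {a})]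
        congr 1
        ext x
        show x.2.right = b ↔ a * b⁻¹ * x.2.right = a
        rw [mul_assoc, mul_eq_left, inv_mul_eq_one, eq_comm]
      have s := sum_measure_preimage_singleton (μ := m) (f := fun x : G n => x.2.right)
        Finset.univ (fun _ _ => MeasurableSet.of_discrete)
      simp only [e, Finset.sum_const, Finset.card_univ, Fintype.card_multiplicative, ZMod.card,
        Finset.coe_univ, preimage_univ, measure_univ, nsmul_eq_mul] at s
      rw [ENNReal.ofReal_div_of_pos (by positivity), ENNReal.ofReal_one,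
        ENNReal.le_div_iff_mul_le (Or.inr one_ne_zero) (Or.inl ENNReal.ofReal_ne_top), mul_comm,
        ← Nat.cast_succ, ENNReal.ofReal_natCast]
      exact s.le)
    (by
      rw [mul_one_div, div_le_iff₀ (by positivity), hn]
      push_cast
      have : (0 : ℝ) ≤ M := Nat.cast_nonneg _
      linarith)
    (by
      intro σ hσ
      obtain ⟨w, -, hw⟩ := Finset.exists_mem_notMem_of_card_lt_card
        (s := (Finset.range M).image (fun i => (σ i).2.right)) (t := Finset.univ) (by
          refine lt_of_le_of_lt Finset.card_image_le ?_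
          simp only [Finset.card_range, Finset.card_univ, Fintype.card_multiplicative, ZMod.card]
          omega)
      have hw' : ∀ i < M, (σ i).2.right ≠ w := fun i hi h =>
        hw (Finset.mem_image.mpr ⟨i, Finset.mem_range.mpr hi, h⟩)
      let ψ : Multiplicative (ZMod (n + 1)) → ℤˣ := fun u =>
        if h : ∃ i < M, (σ i).2.right = u then
          -((σ h.choose).1 * (σ h.choose).2.left u * (σ h.choose).2.left w) else 1
      refine ⟨(1, ⟨ψ, w⟩), fun i hi => ?_⟩
      have e1 : ψ w = 1 := dif_neg (fun ⟨j, hj, h⟩ => hw' j hj h)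
      have e2 : ψ (σ i).2.right =
          -((σ i).1 * (σ i).2.left (σ i).2.right * (σ i).2.left w) := by
        have h : ∃ j < M, (σ j).2.right = (σ i).2.right := ⟨i, hi, rfl⟩
        have h' : h.choose = i := hσ _ h.choose_spec.1 _ hi h.choose_spec.2
        simp only [ψ, dif_pos h, h']
      have e3 : F (σ i) (1, ⟨ψ, w⟩) = -1 := by
        show (σ i).1 * 1 * ((σ i).2.left (σ i).2.right * ψ (σ i).2.right) *
          ((σ i).2.left w * ψ w) = -1
        have k : ∀ a b d : ℤˣ, a * 1 * (b * -(a * b * d)) * (d * 1) = -1 := by decide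
        rw [e1, e2, k]
      rw [hd, if_neg (fun h => hw' i hi (by rw [h])), e3, if_neg (by decide)])
  refine lt_of_le_of_lt u (lt_of_lt_of_le ?_ l)
  exact (ENNReal.ofReal_lt_ofReal_iff (by positivity)).mpr (by linarith)

end Pool.Agent.Results.MP_b215e8_pr.Q1
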